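import Mathlib
import Pool.Agent.R645.RegTree

/-!
# MP_5c7113_al, Q2: a nontrivial ortholattice identity which holds in all `Reg(e)`, `e` a finite
strict ordering

If `(x, y)` is a covering pair of `e` (there is no `z` with `(x, z), (z, y) ∈ e`), then
`a ↦ [(x, y) ∈ a]` is a homomorphism of the ortholattice `Reg(e)` onto the two-element Boolean
algebra: a path from `x` to `y` has only one step. If `e` is a finite strict ordering and `a` is a
nonempty regular closed set, then `a` contains a covering pair: otherwise all covering pairs are in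
the transitive relation `e ∖ int(a)`, and so is every pair of `e` since it is joined by a maximal
chain; hence `int(a) = ∅` and `a = cl(int(a)) = ∅`. So the homomorphisms onto the two-element
Boolean algebra separate every nonzero element from zero, and `t = 0` holds in all `Reg(e)`
whenever it holds in the two-element Boolean algebra. For
`t = x ∧ (x^⊥ ∨ y) ∧ (x^⊥ ∨ y^⊥)` this identity fails in the ortholattice `MO₂` with six elements.
-/

set_option autoImplicit false

namespace Pool.Agent.Results.MP_5c7113_al.OrtholatticeIdentities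

open Pool.Agent.R645.RegTree Relation

universe u

/-- An ortholattice: a bounded lattice with an order-reversing involution `perp` such that
`a ∧ perp a = 0` and `a ∨ perp a = 1`. -/
class OrthoLattice (K : Type*) extends Lattice K where
  zero : K
  one : K
  perp : K → K
  zero_le : ∀ a, zero ≤ a
  le_one : ∀ a, a ≤ one
  perp_perp : ∀ a, perp (perp a) = a
  perp_anti : ∀ a b, a ≤ b → perp b ≤ perp a
  inf_perp : ∀ a, a ⊓ perp a = zero
  sup_perp : ∀ a, a ⊔ perp a = one

/-- Ortholattice terms in the variables `var 0, var 1, …`. -/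
inductive OTerm where
  | var (i : ℕ) : OTerm
  | zero : OTerm
  | one : OTerm
  | perp (s : OTerm) : OTerm
  | sup (s t : OTerm) : OTerm
  | inf (s t : OTerm) : OTerm

/-- The value of an ortholattice term in an ortholattice under an assignment of the variables. -/
def OTerm.eval {K : Type*} [OrthoLattice K] (v : ℕ → K) : OTerm → K
  | .var i => v i
  | .zero => OrthoLattice.zero
  | .one => OrthoLattice.one
  | .perp s => OrthoLattice.perp (s.eval v)
  | .sup s t => s.eval v ⊔ t.eval v
  | .inf s t => s.eval v ⊓ t.eval v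

/-! ### The ortholattice `Reg(e)` -/

section Reg

variable {E : Type*} (e : Set (E × E)) (he : IsTransitive e)

theorem cl_empty : cl (∅ : Set (E × E)) = ∅ := by
  ext p
  constructor
  · intro h
    obtain ⟨c, h1, -⟩ := TransGen.head'_iff.1
      (show TransGen (fun x y => (x, y) ∈ (∅ : Set (E × E))) p.1 p.2 from h)
    exact h1.elim
  · intro h; exact h.elim

theorem empty_reg : IsRegularClosed e ∅ := by
  refine ⟨Set.empty_subset _, ?_⟩
  have : interior e ∅ = ∅ := Set.subset_empty_iff.1 (interior_subset e ∅)
  rw [this, cl_empty]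

include he in
theorem self_reg : IsRegularClosed e e := by
  refine ⟨subset_rfl, ?_⟩
  rw [interior_eq he, Set.sdiff_self, cl_empty, Set.sdiff_empty, cl_eq_of_transitive he]

theorem open_compl (a : Reg e) : IsOpenIn e (e \ a.1) := by
  refine ⟨Set.sdiff_subset, ?_⟩
  rw [Set.sdiff_sdiff_cancel_left a.2.1, a.2.2]
  exact cl_transitive _

/-- The orthocomplement `x^⊥ = cl (e ∖ x)`. -/
def regPerp (a : Reg e) : Reg e := ⟨cl (e \ a.1), regularClosed_cl he (open_compl e a)⟩

/-- The ortholattice `Reg(e)`: the lattice `Reg(e)` with `x^⊥ = cl (e ∖ x)`, `0 = ∅`, `1 = e`. -/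
@[instance_reducible]
def regOrtho : OrthoLattice (Reg e) where
  toLattice := Reg.lattice e he
  zero := ⟨∅, empty_reg e⟩
  one := ⟨e, self_reg e he⟩
  perp := regPerp e he
  zero_le a := Set.empty_subset _
  le_one a := a.2.1
  perp_perp a := by
    apply Subtype.ext
    show cl (e \ cl (e \ a.1)) = a.1
    rw [← interior_eq he, ← a.2.2]
  perp_anti a b h := by
    show cl (e \ b.1) ⊆ cl (e \ a.1)
    exact cl_mono (Set.sdiff_subset_sdiff_right h)
  inf_perp a := by
    apply Subtype.ext
    show cl (interior e (a.1 ∩ cl (e \ a.1))) = ∅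
    have : interior e (a.1 ∩ cl (e \ a.1)) = ∅ := by
      rw [Set.eq_empty_iff_forall_notMem]
      intro p hp
      have h1 : p ∈ interior e a.1 := interior_mono Set.inter_subset_left hp
      rw [interior_eq he] at h1
      exact h1.2 (interior_subset _ _ hp).2
    rw [this, cl_empty]
  sup_perp a := by
    apply Subtype.ext
    show cl (a.1 ∪ cl (e \ a.1)) = e
    apply Set.Subset.antisymm
    · exact cl_subset (Set.union_subset a.2.1 (cl_subset Set.sdiff_subset he)) he
    · intro p hp
      by_cases h : p ∈ a.1
      · exact subset_cl _ (Or.inl h)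
      · exact subset_cl _ (Or.inr (subset_cl _ ⟨hp, h⟩))

end Reg

/-! ### Covering pairs -/

section Cover

variable {E : Type*} {e : Set (E × E)}

/-- `(x, y)` is a covering pair of `e`. -/
def Cover (e : Set (E × E)) (x y : E) : Prop := (x, y) ∈ e ∧ ∀ z, (x, z) ∈ e → (z, y) ∉ e

theorem cover_cl (he : IsTransitive e) {x y : E} (h : Cover e x y) {a : Set (E × E)}
    (ha : a ⊆ e) : (x, y) ∈ cl a ↔ (x, y) ∈ a := by
  refine ⟨fun h1 => ?_, fun h1 => subset_cl _ h1⟩
  obtain ⟨c, h2, h3⟩ := firstStep he ha h1
  rcases h3 with rfl | h3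
  · exact h2
  · exact (h.2 c (ha h2) h3).elim

theorem cover_int (he : IsTransitive e) {x y : E} (h : Cover e x y) {a : Set (E × E)} :
    (x, y) ∈ interior e a ↔ (x, y) ∈ a := by
  refine ⟨fun h1 => interior_subset _ _ h1, fun h1 => ?_⟩
  rw [interior_eq he]
  refine ⟨h.1, fun h2 => ?_⟩
  rw [cover_cl he h Set.sdiff_subset] at h2
  exact h2.2 h1

/-- If the transitive relation `b` contains all covering pairs of the finite strict ordering `e`
then it contains `e`. -/
theorem subset_of_cover [Finite E] (he : IsStrictOrdering e) {b : Set (E × E)}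
    (hb : IsTransitive b) (h : ∀ x y, Cover e x y → (x, y) ∈ b) : e ⊆ b := by
  classical
  have key : ∀ n : ℕ, ∀ x y, (x, y) ∈ e →
      Set.ncard {z | (x, z) ∈ e ∧ (z, y) ∈ e} = n → (x, y) ∈ b := by
    intro n
    induction n using Nat.strong_induction_on with
    | _ n ih =>
      intro x y hxy hn
      by_cases hc : Cover e x y
      · exact h x y hc
      · unfold Cover at hc
        push Not at hc
        obtain ⟨z, h1, h2⟩ := hc hxy
        have hz : z ∈ {z | (x, z) ∈ e ∧ (z, y) ∈ e} := ⟨h1, h2⟩
        have s1 : {w | (x, w) ∈ e ∧ (w, z) ∈ e} ⊂ {z | (x, z) ∈ e ∧ (z, y) ∈ e} := by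
          refine Set.ssubset_iff_subset_ne.2 ⟨fun w hw => ⟨hw.1, he.2 _ _ _ hw.2 h2⟩, ?_⟩
          intro hh
          rw [← hh] at hz
          exact he.1 z hz.2
        have s2 : {w | (z, w) ∈ e ∧ (w, y) ∈ e} ⊂ {z | (x, z) ∈ e ∧ (z, y) ∈ e} := by
          refine Set.ssubset_iff_subset_ne.2 ⟨fun w hw => ⟨he.2 _ _ _ h1 hw.1, hw.2⟩, ?_⟩
          intro hh
          rw [← hh] at hz
          exact he.1 z hz.1
        refine hb x z y ?_ ?_
        · exact ih _ (hn ▸ Set.ncard_lt_ncard s1 (Set.toFinite _)) x z h1 rfl
        · exact ih _ (hn ▸ Set.ncard_lt_ncard s2 (Set.toFinite _)) z y h2 rfl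
  rintro ⟨x, y⟩ hxy
  exact key _ x y hxy rfl

/-- A regular closed set without covering pairs is empty. -/
theorem eq_empty [Finite E] (he : IsStrictOrdering e) (a : Reg e)
    (h : ∀ x y, Cover e x y → (x, y) ∉ a.1) : a.1 = ∅ := by
  have h1 : e ⊆ e \ interior e a.1 :=
    subset_of_cover he (interior_open he.2 a.1).2
      (fun x y hxy => ⟨hxy.1, fun h2 => h x y hxy (interior_subset _ _ h2)⟩)
  have h2 : interior e a.1 = ∅ := by
    rw [Set.eq_empty_iff_forall_notMem]
    intro p hp
    exact (h1 (a.2.1 (interior_subset _ _ hp))).2 hp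
  rw [a.2.2, h2, cl_empty]

end Cover

/-! ### The two-element Boolean algebra and the ortholattice `MO₂` -/

/-- The two-element Boolean algebra as an ortholattice. -/
instance boolOrtho : OrthoLattice Bool where
  le x y := x = false ∨ y = true
  lt x y := (x = false ∨ y = true) ∧ ¬ (y = false ∨ x = true)
  lt_iff_le_not_ge := fun _ _ => Iff.rfl
  le_refl := by decide
  le_trans := by decide
  le_antisymm := by decide
  sup x y := x || y
  inf x y := x && y
  le_sup_left := by decide
  le_sup_right := by decide
  sup_le := by decide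
  inf_le_left := by decide
  inf_le_right := by decide
  le_inf := by decide
  zero := false
  one := true
  perp x := !x
  zero_le := by decide
  le_one := by decide
  perp_perp := by decide
  perp_anti := by decide
  inf_perp := by decide
  sup_perp := by decide

/-- The six elements of `MO₂`. -/
inductive MO where
  | z | o | a | a' | b | b'
  deriving DecidableEq, Fintype

/-- The ortholattice `MO₂`: `0`, `1` and four pairwise incomparable elements `a, a', b, b'` with
`a^⊥ = a'`, `b^⊥ = b'`. -/
instance moOrtho : OrthoLattice MO where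
  le x y := x = .z ∨ y = .o ∨ x = y
  le_refl := by decide
  le_trans := by decide
  le_antisymm := by decide
  sup x y := if x = .z then y else if y = .z then x else if x = y then x else .o
  inf x y := if x = .o then y else if y = .o then x else if x = y then x else .z
  le_sup_left := by decide
  le_sup_right := by decide
  sup_le := by decide
  inf_le_left := by decide
  inf_le_right := by decide
  le_inf := by decide
  zero := .z
  one := .o
  perp
    | .z => .o
    | .o => .z
    | .a => .a'
    | .a' => .a
    | .b => .b'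
    | .b' => .b
  zero_le := by decide
  le_one := by decide
  perp_perp := by decide
  perp_anti := by decide
  inf_perp := by decide
  sup_perp := by decide

/-- At a covering pair every term is evaluated as in the two-element Boolean algebra. -/
theorem cover_eval {E : Type*} {e : Set (E × E)} (he : IsTransitive e) {x y : E}
    (h : Cover e x y) (F : ℕ → Reg e) (w : ℕ → Bool)
    (hw : ∀ i, (x, y) ∈ (F i).1 ↔ w i = true) (t : OTerm) :
    (x, y) ∈ (@OTerm.eval (Reg e) (regOrtho e he) F t).1 ↔ t.eval w = true := by
  induction t with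
  | var i => exact hw i
  | zero =>
    show (x, y) ∈ (∅ : Set (E × E)) ↔ false = true
    simp
  | one =>
    show (x, y) ∈ e ↔ true = true
    simp [h.1]
  | perp s ih =>
    show (x, y) ∈ cl (e \ (@OTerm.eval (Reg e) (regOrtho e he) F s).1) ↔
      (not (s.eval w)) = true
    rw [cover_cl he h Set.sdiff_subset, Set.mem_sdiff, ih]
    simp [h.1]
  | sup s t ihs iht =>
    show (x, y) ∈ cl ((@OTerm.eval (Reg e) (regOrtho e he) F s).1 ∪
      (@OTerm.eval (Reg e) (regOrtho e he) F t).1) ↔ (s.eval w || t.eval w) = true
    rw [cover_cl he h (Set.union_subset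
      (@OTerm.eval (Reg e) (regOrtho e he) F s).2.1
      (@OTerm.eval (Reg e) (regOrtho e he) F t).2.1),
      Set.mem_union, ihs, iht]
    cases s.eval w <;> cases t.eval w <;> simp
  | inf s t ihs iht =>
    show (x, y) ∈ cl (interior e ((@OTerm.eval (Reg e) (regOrtho e he) F s).1 ∩
      (@OTerm.eval (Reg e) (regOrtho e he) F t).1)) ↔ (s.eval w && t.eval w) = true
    rw [cover_cl he h ((interior_subset _ _).trans
      (Set.inter_subset_left.trans (@OTerm.eval (Reg e) (regOrtho e he) F s).2.1)),
      cover_int he h, Set.mem_inter_iff, ihs, iht]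
    cases s.eval w <;> cases t.eval w <;> simp

/-! ### The theorem -/

/-- The identity `s = t` holds in the ortholattice `Reg(e)` for every finite strict ordering
`e`. -/
def HoldsInReg (s t : OTerm) : Prop :=
  ∀ (E : Type u) [Finite E] (e : Set (E × E)) (he : IsStrictOrdering e) (F : ℕ → Reg e),
    @OTerm.eval (Reg e) (regOrtho e he.2) F s = @OTerm.eval (Reg e) (regOrtho e he.2) F t

theorem holds_of (t : OTerm) (h : ∀ w : ℕ → Bool, t.eval w = false) :
    HoldsInReg.{u} t .zero := by
  classical
  intro E _ e he F
  apply Subtype.ext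
  show (@OTerm.eval (Reg e) (regOrtho e he.2) F t).1 = ∅
  refine eq_empty he _ (fun x y hxy h1 => ?_)
  rw [cover_eval he.2 hxy F (fun i => decide ((x, y) ∈ (F i).1)) (fun i => by simp) t, h] at h1
  cases h1

theorem of_holds (t : OTerm) (h : HoldsInReg.{u} t .zero) (w : ℕ → Bool) :
    t.eval w = false := by
  classical
  by_contra hne
  have hne : t.eval w = true := by simpa using hne
  let E : Type u := ULift.{u} Bool
  let e : Set (E × E) := {p | p.1.down = false ∧ p.2.down = true}
  have he : IsStrictOrdering e := by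
    refine ⟨fun x hx => ?_, fun x y z h1 h2 => ⟨h1.1, h2.2⟩⟩
    have a1 : x.down = false := hx.1
    have a2 : x.down = true := hx.2
    rw [a1] at a2
    cases a2
  have hc : Cover e ⟨false⟩ ⟨true⟩ := by
    refine ⟨⟨rfl, rfl⟩, fun z h1 h2 => ?_⟩
    have a1 : z.down = true := h1.2
    have a2 : z.down = false := h2.1
    rw [a1] at a2
    cases a2
  let F : ℕ → Reg e := fun i => if w i = true then ⟨e, self_reg e he.2⟩ else
    ⟨∅, empty_reg e⟩
  have hF : ∀ i, ((⟨false⟩, ⟨true⟩) : E × E) ∈ (F i).1 ↔ w i = true := by
    intro i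
    by_cases hi : w i = true
    · simp only [F, hi, if_true, iff_true]
      exact hc.1
    · simp only [F, if_neg hi]
      exact ⟨fun h => h.elim, fun h => (hi h).elim⟩
  have h1 := (cover_eval he.2 hc F w hF t).2 hne
  rw [h E e he F] at h1
  exact h1

/-- The term `x ∧ (x^⊥ ∨ y) ∧ (x^⊥ ∨ y^⊥)`. -/
def theTerm : OTerm :=
  .inf (.inf (.var 0) (.sup (.perp (.var 0)) (.var 1)))
    (.sup (.perp (.var 0)) (.perp (.var 1)))

/-- **There is a nontrivial ortholattice identity which holds in the ortholattice `Reg(e)` for
every finite strict ordering `e`**, namely `x ∧ (x^⊥ ∨ y) ∧ (x^⊥ ∨ y^⊥) = 0`. More generally, an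
identity `t = 0` holds in all these ortholattices if and only if it holds in the two-element
Boolean algebra. -/
theorem result :
    (HoldsInReg.{u} theTerm .zero ∧
      ∃ (K : Type) (_ : OrthoLattice K) (v : ℕ → K), theTerm.eval v ≠ OTerm.zero.eval v) ∧
    ∀ t : OTerm, HoldsInReg.{u} t .zero ↔ ∀ w : ℕ → Bool, t.eval w = OTerm.zero.eval w := by
  refine ⟨⟨holds_of _ ?_, MO, moOrtho, fun i => if i = 0 then .a else .b, ?_⟩,
    fun t => ⟨fun h w => of_holds t h w, fun h => holds_of t h⟩⟩
  · intro w
    show ((w 0 && (!(w 0) || w 1)) && (!(w 0) || !(w 1))) = false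
    cases w 0 <;> cases w 1 <;> rfl
  · show ((MO.a ⊓ (OrthoLattice.perp MO.a ⊔ MO.b)) ⊓
      (OrthoLattice.perp MO.a ⊔ OrthoLattice.perp MO.b)) ≠ MO.z
    decide

end Pool.Agent.Results.MP_5c7113_al.OrtholatticeIdentities
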